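import Pool.Agent.Lib.D2_h2.Final3c
import Pool.Agent.Lib.D2_h13.PolDefs

/-!
# DefectTwo: `RowSub` (subtraction of `g`)
-/

set_option autoImplicit false

open Polynomial

namespace Pool.Agent.D2h2

open Pool.Agent.LU1 Pool.Agent.LU1.BF Pool.Agent.LU1.RepAux Pool.Agent.LU3 Pool.Agent.D2h13
open Pool.Agent.H15JM (RVal)

universe u

variable {k Ω : Type u} [Field k] [Field Ω] [Algebra k Ω] {v : RVal Ω} {r : ℕ}

theorem hi_of_cpos {B : BF k v} {f : Ω} (hf : CPos B f) : Hi B 0 f := by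
  obtain ⟨δ, hδ, h0, a, ha, rfl⟩ := hf
  exact ⟨δ, hδ, h0, a, ha, rfl⟩

theorem hi_mul_dv {B : BF k v} {κ κ' : ℝ} (hκ' : κ' ∈ B.Γ) {z t : Ω} (hz : Hi B κ z)
    (ht : Dv B κ' t) : Hi B (κ + κ') (z * t) := by
  obtain ⟨γ, hγ, h1, a, ha, rfl⟩ := hz
  obtain ⟨b, hb, rfl⟩ := ht
  exact ⟨γ + κ', B.Γ.add_mem hγ hκ', by linarith, a * b, B.R.mul_mem ha hb, by
    rw [B.χ_add γ hγ κ' hκ']; ring⟩

theorem rep_neg {B : BF k v} {f : Ω} {κ : ℝ} {D : ℕ} (h1 : B.Rep f κ D) : B.Rep (-f) κ D := by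
  obtain ⟨hκ, u, hu, δ, hδ, hδ0, b, hb, hbe⟩ := h1
  refine ⟨hκ, -u, ⟨B.R.neg_mem hu.1, neg_ne_zero.2 hu.2.1, ?_⟩, δ, hδ, hδ0, -b,
    B.R.neg_mem hb, ?_⟩
  · rw [v.map_neg u hu.2.1]; exact hu.2.2
  · rw [hbe]; ring

/-- No element with a representation `(κ, D)` is of content `> κ`. -/
theorem rep_not_hi (h : Ctx k v r) {B : BF k v} {f : Ω} {κ : ℝ} {D : ℕ} (h1 : B.Rep f κ D)
    (h2 : Hi B κ f) : False := by
  obtain ⟨γ, hγ, hlt, a, ha, hfe⟩ := h2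
  have := h1.ge_of_mem h hγ ha hfe
  linarith

/-- In `VRep h B f (h γ) D` with `h ∤ D` and `f ∈ B.R` we have `γ ≥ 0`. -/
theorem nonneg_of_mem (hc : Ctx k v r) {B : BF k v} {h : ℕ} (hh : 0 < h) {γ δ : ℝ} (hγ : γ ∈ B.Γ)
    {f u a g : Ω} {D : ℕ} (hf : f ∈ B.R) (hu : B.Un u) (hδ : δ ∈ B.Γ) (hδ0 : 0 < δ)
    (ha : a ∈ B.R) (hg : g ∈ B.R) (hD : ¬ h ∣ D)
    (hfe : f = B.χ ((h : ℝ) * γ) * (g ^ h + u * B.y ^ D + B.χ δ * a)) : 0 ≤ γ := by
  by_contra hcon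
  have hγ0 : γ < 0 := not_le.1 hcon
  have hκ : (h : ℝ) * γ ∈ B.Γ := by rw [← nsmul_eq_mul]; exact B.Γ.nsmul_mem hγ h
  have hκ0 : (h : ℝ) * γ < 0 := mul_neg_of_pos_of_neg (by exact_mod_cast hh) hγ0
  have hnκ := B.Γ.neg_mem hκ
  -- `g ^ h + u y ^ D` has positive content
  have h1 : Hi B 0 (g ^ h + u * B.y ^ D) := by
    have e1 : g ^ h + u * B.y ^ D = B.χ (-((h : ℝ) * γ)) * f + B.χ δ * (-a) := by
      rw [hfe, B.χ_neg hκ, ← mul_assoc, inv_mul_cancel₀ (B.χ_ne _ hκ)]; ring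
    rw [e1]
    exact Hi.add ⟨_, hnκ, by linarith, f, hf, rfl⟩ ⟨δ, hδ, hδ0, -a, B.R.neg_mem ha, rfl⟩
  have huy : B.Rep (u * B.y ^ D) 0 D := by
    have h2 : B.Rep u 0 0 := by
      have := (Mono.un hu).rep
      rwa [hu.2.2] at this
    have h3 := h2.mul (B.rep_y.pow D)
    rw [mul_zero, add_zero, zero_add, mul_one] at h3
    exact h3
  by_cases hg0 : g = 0
  · rw [hg0, zero_pow hh.ne', zero_add] at h1
    exact rep_not_hi hc huy h1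
  · obtain ⟨κg, Dg, hκg0, hrep⟩ := B.rep_exists hc hg hg0
    have hgp := hrep.pow h
    rcases lt_or_eq_of_le hκg0 with hlt | heq
    · have h2 : Hi B 0 (g ^ h) :=
        (Dv.of_rep hgp).hi hgp.1 (mul_pos (by exact_mod_cast hh) hlt)
      refine rep_not_hi hc huy ?_
      have e1 : u * B.y ^ D = (g ^ h + u * B.y ^ D) + -(g ^ h) := by ring
      rw [e1]
      exact h1.add h2.neg
    · subst heq
      rw [mul_zero] at hgp
      rcases lt_trichotomy (h * Dg) D with hlt | heq2 | hgt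
      · exact rep_not_hi hc (hgp.add huy (Or.inr ⟨rfl, hlt⟩)) h1
      · exact hD ⟨Dg, heq2.symm⟩
      · have h3 := huy.add hgp (Or.inr ⟨rfl, hgt⟩)
        rw [add_comm] at h3
        exact rep_not_hi hc h3 h1

/-- The estimate: `H(θ + τ) = H(θ) + τ^h` up to content `> h γ`, for `τ ∈ χ(γ) R`,
`0 ≤ γ < σ`. -/
theorem hloc_est {B : BF k v} {H : Polynomial Ω} {h : ℕ} {σ : ℝ} (hH : HLoc B H h σ)
    (hh : 0 < h) {θ τ : Ω} (hθ : θ ∈ B.R) {γ : ℝ} (hγ : γ ∈ B.Γ) (hγ0 : 0 ≤ γ) (hγσ : γ < σ)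
    (hτ : Dv B γ τ) : Hi B ((h : ℝ) * γ) (H.eval (θ + τ) - H.eval θ - τ ^ h) := by
  classical
  have hmul : ∀ n : ℕ, (n : ℝ) * γ ∈ B.Γ := fun n => by
    rw [← nsmul_eq_mul]; exact B.Γ.nsmul_mem hγ n
  have hterm : ∀ i : ℕ, i ≠ 0 → i ≠ h →
      Hi B ((h : ℝ) * γ) ((hasseDeriv i H).eval θ * τ ^ i) := by
    intro i hi0 hih
    rcases lt_or_gt_of_ne hih with hlt | hgt
    · obtain ⟨δ, hδ, hδ1, a, ha, hae⟩ := hH.low θ hθ i (Nat.pos_of_ne_zero hi0) hlt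
      have h1 : Dv B δ ((hasseDeriv i H).eval θ) := ⟨a, ha, hae⟩
      refine (h1.mul hδ (hmul i) (hτ.pow hγ i)).hi (B.Γ.add_mem hδ (hmul i)) ?_
      have h2 : (0 : ℝ) < (h : ℝ) - i := by
        have : (i : ℝ) < h := by exact_mod_cast hlt
        linarith
      have h3 : 0 < ((h : ℝ) - i) * (σ - γ) := mul_pos h2 (by linarith)
      nlinarith
    · have h1 := hi_mul_dv (hmul i) (hi_of_cpos (hH.high θ hθ i hgt)) (hτ.pow hγ i)
      rw [zero_add] at h1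
      refine h1.mono ?_
      have : (h : ℝ) ≤ i := by exact_mod_cast hgt.le
      exact mul_le_mul_of_nonneg_right this hγ0
  have hhterm : Hi B ((h : ℝ) * γ) ((hasseDeriv h H).eval θ * τ ^ h - τ ^ h) := by
    have h1 := hi_mul_dv (hmul h) (hi_of_cpos (hH.unit θ hθ)) (hτ.pow hγ h)
    rw [zero_add] at h1
    have e1 : (hasseDeriv h H).eval θ * τ ^ h - τ ^ h =
        ((hasseDeriv h H).eval θ - 1) * τ ^ h := by ring
    rw [e1]
    exact h1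
  set N := max (H.natDegree + 1) (h + 1) with hN
  have hexp := eval_taylor_sum H θ (θ + τ) (N := N) (lt_of_lt_of_le (Nat.lt_succ_self _)
    (le_max_left _ _))
  rw [add_sub_cancel_left] at hexp
  have hhN : h ∈ (Finset.range N).erase 0 :=
    Finset.mem_erase.2 ⟨hh.ne', Finset.mem_range.2 (lt_of_lt_of_le (Nat.lt_succ_self _)
      (le_max_right _ _))⟩
  have h0N : 0 ∈ Finset.range N := Finset.mem_range.2 (lt_of_lt_of_le (Nat.succ_pos _)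
    (le_max_left _ _))
  rw [← Finset.add_sum_erase _ _ h0N, ← Finset.add_sum_erase _ _ hhN, hasseDeriv_zero',
    pow_zero, mul_one] at hexp
  have e2 : H.eval (θ + τ) - H.eval θ - τ ^ h =
      ((hasseDeriv h H).eval θ * τ ^ h - τ ^ h) +
        ∑ x ∈ ((Finset.range N).erase 0).erase h, (hasseDeriv x H).eval θ * τ ^ x := by
    rw [hexp]; ring
  rw [e2]
  refine hhterm.add (hi_sum (hmul h) _ _ fun i hi => ?_)
  have h1 := Finset.mem_erase.1 hi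
  have h2 := Finset.mem_erase.1 h1.2
  exact hterm i h2.1 h1.1

theorem rowSub : RowSub k Ω v r := by
  intro p hp hchar _ hc t ht h hht B H σ hH θ hθ γ hγ D hD0 hDh hV
  have : Fact p.Prime := ⟨hp⟩
  have : CharP Ω p := charP_of_injective_algebraMap (algebraMap k Ω).injective p
  have hh : 0 < h := by rw [hht]; exact pow_pos hp.pos t
  obtain ⟨hκ, u, hu, δ, hδ, hδ0, a, ha, g, hg, hfe, -, hvis⟩ := hV
  have hnd : ¬ h ∣ D := hvis ⟨γ, hγ, rfl⟩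
  have hHθ : H.eval θ ∈ B.R := by
    rw [eval_eq_sum_range]
    exact B.R.sum_mem fun n _ => B.R.mul_mem (hH.mem n) (B.R.pow_mem hθ n)
  have hγ0 : 0 ≤ γ := nonneg_of_mem hc hh hγ hHθ hu hδ hδ0 ha hg hnd hfe
  obtain ⟨hne, hval⟩ := hH.val θ hθ
  have hκv : (h : ℝ) * γ ≤ v (H.eval θ) := by
    have hin : g ^ h + u * B.y ^ D + B.χ δ * a ∈ B.R :=
      B.R.add_mem (B.R.add_mem (B.R.pow_mem hg h) (B.R.mul_mem hu.1 (B.R.pow_mem B.y_mem D)))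
        (B.R.mul_mem (B.χ_mem δ hδ hδ0.le) ha)
    have hne2 : g ^ h + u * B.y ^ D + B.χ δ * a ≠ 0 := by
      intro h0
      rw [h0, mul_zero] at hfe
      exact hne hfe
    have h1 := B.nonneg _ hin hne2
    rw [hfe, v.map_mul (B.χ_ne _ hκ) hne2, B.χ_val _ hκ]
    linarith
  have hγσ : γ < σ := by
    have h1 : (h : ℝ) * γ < h * σ := lt_of_le_of_lt hκv hval
    exact lt_of_mul_lt_mul_left h1 (Nat.cast_nonneg h)
  set τ : Ω := -(B.χ γ * g) with hτdef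
  have hτ : Dv B γ τ := ⟨-g, B.R.neg_mem hg, by rw [hτdef]; ring⟩
  have hτR : τ ∈ B.R := B.R.neg_mem (B.R.mul_mem (B.χ_mem γ hγ hγ0) hg)
  have hest := hloc_est hH hh hθ hγ hγ0 hγσ hτ
  have hτh : τ ^ h = -(B.χ ((h : ℝ) * γ) * g ^ h) := by
    rw [hτdef, neg_pow, hht, neg_one_pow_char_pow Ω p t, ← hht, mul_pow, B.χ_nsmul hγ]
    ring
  refine ⟨θ + τ, B.R.add_mem hθ hτR, ?_⟩
  have e1 : H.eval (θ + τ) = B.χ ((h : ℝ) * γ) * (u * B.y ^ D + B.χ δ * a) +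
      (H.eval (θ + τ) - H.eval θ - τ ^ h) := by
    rw [hτh]
    linear_combination hfe
  rw [e1]
  exact rep_add_hi ⟨hκ, u, hu, δ, hδ, hδ0, a, ha, rfl⟩ hest

end Pool.Agent.D2h2
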