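import Pool.Agent.Lib.D2_h2.Final3c
import Pool.Agent.Lib.LU3.Rows

/-!
# DefectTwo: from the coefficients `A^[j](ψ) χ((j - m) a)` to `Drop`
-/

set_option autoImplicit false

open Polynomial

namespace Pool.Agent.LU3

open Pool.Agent.LU1
open Pool.Agent.H15JM (RVal)

universe u

variable {k Ω : Type u} [Field k] [Field Ω] [Algebra k Ω] {v : RVal Ω}
  {Ω₀ : IntermediateField k Ω}

/-- The ring of `B` is contained in the ring of `F`. -/
theorem mem_of_isRF2 {F : RF2 k v} {B : BF k (resv v Ω₀)} {z : Ω} (hF : IsRF2 F B z) {f : Ω₀}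
    (hf : f ∈ B.R) : (f : Ω) ∈ F.R := by
  have hP : ∀ g ∈ Algebra.adjoin k (B.χ '' {γ | γ ∈ B.Γ ∧ 0 ≤ γ} ∪ {B.y}), (g : Ω) ∈ F.P := by
    intro g hg
    have h1 : (Ω₀.val g : Ω) ∈ (Algebra.adjoin k
        (B.χ '' {γ | γ ∈ B.Γ ∧ 0 ≤ γ} ∪ {B.y})).map Ω₀.val := ⟨g, hg, rfl⟩
    rw [AlgHom.map_adjoin] at h1
    refine (Algebra.adjoin_mono ?_ : _ ≤ F.P) h1
    rintro _ ⟨x, hx | hx, rfl⟩
    · obtain ⟨γ, ⟨hγ, hγ0⟩, rfl⟩ := hx
      left
      refine ⟨γ, ⟨by rw [hF.Γ_eq]; exact hγ, hγ0⟩, ?_⟩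
      rw [hF.χ_eq γ hγ]; rfl
    · right
      rw [Set.mem_singleton_iff] at hx
      subst hx
      left
      rw [hF.y_eq]; rfl
  rw [hF.rat] at hf
  obtain ⟨a, ha, b, hb, hb0, hvb, rfl⟩ := hf
  exact ⟨(a : Ω), hP a ha, (b : Ω), hP b hb, fun h => hb0 (Subtype.ext h), hvb, rfl⟩

theorem un_of_isRF2 {F : RF2 k v} {B : BF k (resv v Ω₀)} {z : Ω} (hF : IsRF2 F B z) {f : Ω₀}
    (hf : B.Un f) : F.Un (f : Ω) :=
  ⟨mem_of_isRF2 hF hf.1, fun h => hf.2.1 (Subtype.ext h), hf.2.2⟩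

/-- Elements of `F.R`. -/
theorem RF2.z_memD (F : RF2 k v) : F.z ∈ F.R :=
  le_locv _ (Algebra.subset_adjoin (Or.inr (Or.inr rfl)))

/-- **The end of the step**: if `z = ψ + χ(a) z'`, `F'` is the frame of `(S, z')` and the
coefficients of `A(ψ + χ(a) Z) / χ(m a)` are in `S.R`, the constant one of content `0` and order
`l`, then `A(z)` has order `l` in `F'`. -/
theorem yrep_of {F' : RF2 k v} {S : BF k (resv v Ω₀)} {z z' : Ω} (hF' : IsRF2 F' S z')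
    {A : Polynomial Ω₀} {m l : ℕ} {a : ℝ} {ψ : Ω₀} (haΓ : a ∈ S.Γ)
    (hz : z = (ψ : Ω) + (S.χ a : Ω) * z')
    (hmem : ∀ j : ℕ, (hasseDeriv j A).eval ψ * S.χ (((j : ℝ) - m) * a) ∈ S.R)
    (hrep : S.Rep (A.eval ψ * S.χ ((-(m : ℝ)) * a)) 0 l) :
    F'.YRep (aeval z A) (m * a) l := by
  classical
  have hmul : ∀ n : ℤ, (n : ℝ) * a ∈ S.Γ := fun n => by
    rw [← zsmul_eq_mul]; exact S.Γ.zsmul_mem haΓ n
  have hma : (m : ℝ) * a ∈ S.Γ := by have := hmul (m : ℤ); push_cast at this; exact this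
  have hjm : ∀ j : ℕ, ((j : ℝ) - m) * a ∈ S.Γ := fun j => by
    have := hmul ((j : ℤ) - m); push_cast at this; exact this
  set g : ℕ → Ω₀ := fun j => (hasseDeriv j A).eval ψ * S.χ (((j : ℝ) - m) * a) with hg
  -- `A(z) = χ(m a) ∑ g_j z'^j`
  have hexp : aeval z A = (S.χ ((m : ℝ) * a) : Ω) *
      ∑ j ∈ Finset.range (A.natDegree + 1), (g j : Ω) * z' ^ j := by
    have h1 : aeval z A = (A.map (algebraMap Ω₀ Ω)).eval z := by
      rw [eval_map_algebraMap]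
    rw [h1, D2h2.eval_taylor_sum (A.map (algebraMap Ω₀ Ω)) (ψ : Ω) z
      (N := A.natDegree + 1) (by rw [natDegree_map]; exact Nat.lt_succ_self _), Finset.mul_sum]
    refine Finset.sum_congr rfl fun j _ => ?_
    have h2 : z - (ψ : Ω) = (S.χ a : Ω) * z' := by rw [hz]; ring
    have h3 : (hasseDeriv j (A.map (algebraMap Ω₀ Ω))).eval (ψ : Ω) =
        (((hasseDeriv j A).eval ψ : Ω₀) : Ω) := by
      have h4 : hasseDeriv j (A.map (algebraMap Ω₀ Ω)) =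
          (hasseDeriv j A).map (algebraMap Ω₀ Ω) := by
        ext n
        rw [hasseDeriv_coeff, coeff_map, coeff_map, hasseDeriv_coeff, map_mul, map_natCast]
      rw [h4]
      have h5 : (ψ : Ω) = algebraMap Ω₀ Ω ψ := rfl
      rw [h5, eval_map_apply]
      rfl
    have hcast : (g j : Ω) = (((hasseDeriv j A).eval ψ : Ω₀) : Ω) *
        (S.χ (((j : ℝ) - m) * a) : Ω) := rfl
    have e1 : S.χ a ^ j = S.χ ((m : ℝ) * a) * S.χ (((j : ℝ) - m) * a) := by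
      rw [← S.χ_nsmul haΓ, ← S.χ_add _ hma _ (hjm j)]
      congr 1
      ring
    have e2 : (S.χ a : Ω) ^ j = (S.χ ((m : ℝ) * a) : Ω) * (S.χ (((j : ℝ) - m) * a) : Ω) := by
      have := congrArg (fun x : Ω₀ => (x : Ω)) e1
      simpa using this
    rw [h3, h2, mul_pow, hcast, e2]
    ring
  have hχF : ∀ γ ∈ S.Γ, F'.χ γ = (S.χ γ : Ω) := hF'.χ_eq
  have hz'mem : z' ∈ F'.R := by rw [← hF'.z_eq]; exact F'.z_memD
  obtain ⟨-, u, hu, δ, hδ, hδ0, b, hb, hbe⟩ := hrep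
  rw [S.χ_zero, one_mul] at hbe
  refine ⟨by rw [hF'.Γ_eq]; exact hma, (u : Ω), un_of_isRF2 hF' hu,
    ∑ j ∈ Finset.range A.natDegree, (g (j + 1) : Ω) * z' ^ j, ?_, δ,
    by rw [hF'.Γ_eq]; exact hδ, hδ0, (b : Ω), mem_of_isRF2 hF' hb, ?_⟩
  · exact F'.R.sum_mem fun j _ => F'.R.mul_mem (mem_of_isRF2 hF' (hmem (j + 1)))
      (F'.R.pow_mem hz'mem j)
  · rw [hexp, Finset.sum_range_succ', hχF _ hma, hχF _ hδ, hF'.y_eq, hF'.z_eq]
    congr 1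
    have h6 : (g 0 : Ω) = (u : Ω) * (S.y : Ω) ^ l + (S.χ δ : Ω) * (b : Ω) := by
      have h7 : g 0 = u * S.y ^ l + S.χ δ * b := by
        rw [hg]
        simp only [hasseDeriv_zero', Nat.cast_zero, zero_sub]
        rw [← hbe]
      rw [h7]
      rfl
    rw [pow_zero, mul_one, h6, Finset.mul_sum]
    have h8 : ∑ j ∈ Finset.range A.natDegree, (g (j + 1) : Ω) * z' ^ (j + 1) =
        ∑ j ∈ Finset.range A.natDegree, z' * ((g (j + 1) : Ω) * z' ^ j) :=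
      Finset.sum_congr rfl fun j _ => by rw [pow_succ]; ring
    rw [h8]
    ring

/-- The same with the conclusion `Drop`. -/
theorem drop_of {F F' : RF2 k v} (hFF' : F.Le F') {S : BF k (resv v Ω₀)} {z z' : Ω}
    (hF' : IsRF2 F' S z') {A : Polynomial Ω₀} {m l : ℕ} {a : ℝ} {ψ : Ω₀} (haΓ : a ∈ S.Γ)
    (hz : z = (ψ : Ω) + (S.χ a : Ω) * z')
    (hmem : ∀ j : ℕ, (hasseDeriv j A).eval ψ * S.χ (((j : ℝ) - m) * a) ∈ S.R)
    (hrep : S.Rep (A.eval ψ * S.χ ((-(m : ℝ)) * a)) 0 l) (hl : l < m) :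
    F.Drop (aeval z A) m :=
  ⟨F', hFF', m * a, l, hl, Or.inr (yrep_of hF' haΓ hz hmem hrep)⟩

end Pool.Agent.LU3
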