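import Pool.Agent.Lib.LU1_h15.Reg

/-!
# DefectTwo, row R7: density

`C` is a frame, `t` an element of positive value with `C.Rep t 0 e`, i.e.
`t = u y^e + χ(δ) a` with a unit `u` and `δ > 0`.  Then every `η ∈ C.R` is, up to an error of
arbitrarily large value, a polynomial of degree `< e` in `y` with coefficients in
`k[χ(Γ≥0), t]`.
-/

set_option autoImplicit false

open Polynomial

namespace Pool.Agent.D2h2

open Pool.Agent.LU1 Pool.Agent.LU1.BF
open Pool.Agent.H15JM (RVal)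

universe u

variable {k Ω : Type u} [Field k] [Field Ω] [Algebra k Ω] {v : RVal Ω} {r : ℕ}

/-- The errors of order `M`: sums of products of `M` of the elements `x i`, `t` with elements
of `N.R`. -/
def Err (N : NF k v r) (t : Ω) : ℕ → Ω → Prop
  | 0, f => f ∈ N.R
  | M + 1, f => ∃ a : Fin r → Ω, (∀ i, Err N t M (a i)) ∧ ∃ b, Err N t M b ∧
      f = ∑ i, N.x i * a i + t * b

theorem Err.ge {N : NF k v r} {t : Ω} {μ : ℝ} (hx : ∀ i, v.Ge μ (N.x i)) (ht : v.Ge μ t)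
    (M : ℕ) : ∀ f, Err N t M f → v.Ge (M * μ) f := by
  induction M with
  | zero =>
    intro f hf
    rw [Nat.cast_zero, zero_mul]
    exact N.nonneg f hf
  | succ M ih =>
    rintro f ⟨a, ha, b, hb, rfl⟩
    have e1 : ((M + 1 : ℕ) : ℝ) * μ = μ + M * μ := by push_cast; ring
    rw [e1]
    exact (RVal.Ge.sum _ _ fun i _ => (hx i).mul (ih _ (ha i))).add (ht.mul (ih _ hb))

/-- Every element of `N.R` is `p(y) + y^m b + ∑ x i a i` with `deg p < m`. -/
theorem expand_y (h : Ctx k v r) (N : NF k v r) {f : Ω} (hf : f ∈ N.R) (m : ℕ) :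
    ∃ p : k[X], p.degree < m ∧ ∃ a : Fin r → Ω, (∀ i, a i ∈ N.R) ∧ ∃ b ∈ N.R,
      f = aeval N.y p + ∑ i, N.x i * a i + N.y ^ m * b := by
  induction m with
  | zero =>
    refine ⟨0, by simp, fun _ => 0, fun _ => N.R.zero_mem, f, hf, ?_⟩
    simp
  | succ m ih =>
    obtain ⟨p, hp, a, ha, b, hb, hfe⟩ := ih
    obtain ⟨c, hc⟩ := h.residue (N.nonneg b hb)
    obtain ⟨a', ha', b', hb', hbe⟩ := N.gen (b - algebraMap k Ω c)
      (N.R.sub_mem hb (N.R.algebraMap_mem c)) hc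
    refine ⟨p + C c * X ^ m, ?_, fun i => a i + N.y ^ m * a' i,
      fun i => N.R.add_mem (ha i) (N.R.mul_mem (N.R.pow_mem N.y_mem m) (ha' i)), b', hb', ?_⟩
    · refine lt_of_le_of_lt (degree_add_le _ _) (max_lt ?_ ?_)
      · exact hp.trans (by exact_mod_cast Nat.lt_succ_self m)
      · exact lt_of_le_of_lt (degree_C_mul_X_pow_le m c) (by exact_mod_cast Nat.lt_succ_self m)
    · have hb2 : b = algebraMap k Ω c + (∑ i, N.x i * a' i + N.y * b') := by rw [← hbe]; ring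
      have hs : ∑ i, N.x i * (a i + N.y ^ m * a' i) =
          ∑ i, N.x i * a i + N.y ^ m * ∑ i, N.x i * a' i := by
        rw [Finset.mul_sum, ← Finset.sum_add_distrib]
        exact Finset.sum_congr rfl fun i _ => by ring
      rw [hs, map_add, map_mul, aeval_C, map_pow, aeval_X, hfe]
      nth_rw 1 [hb2]
      ring

/-- One step: with `t = u y^e + x_{i0} w`, every element of `N.R` is
`p(y) + ∑ x i a i + t b`. -/
theorem step (h : Ctx k v r) (N : NF k v r) {t u w : Ω} {e : ℕ} (i0 : Fin r)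
    (hu : u ∈ N.R) (hu0 : u ≠ 0) (hvu : v u = 0) (hw : w ∈ N.R)
    (ht : t = u * N.y ^ e + N.x i0 * w) {f : Ω} (hf : f ∈ N.R) :
    ∃ p : k[X], p.degree < e ∧ ∃ a : Fin r → Ω, (∀ i, a i ∈ N.R) ∧ ∃ b ∈ N.R,
      f = aeval N.y p + (∑ i, N.x i * a i + t * b) := by
  classical
  obtain ⟨p, hp, a, ha, b, hb, hfe⟩ := expand_y h N hf e
  have hui : u⁻¹ ∈ N.R := N.inv_mem hu hu0 hvu
  refine ⟨p, hp, fun i => a i + (Pi.single i0 (-(w * u⁻¹ * b)) : Fin r → Ω) i, fun i => ?_,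
    u⁻¹ * b, N.R.mul_mem hui hb, ?_⟩
  · refine N.R.add_mem (ha i) ?_
    by_cases hi : i = i0
    · subst hi
      rw [Pi.single_eq_same]
      exact N.R.neg_mem (N.R.mul_mem (N.R.mul_mem hw hui) hb)
    · rw [Pi.single_eq_of_ne hi]
      exact N.R.zero_mem
  · have hs : ∑ i, N.x i * (a i + (Pi.single i0 (-(w * u⁻¹ * b)) : Fin r → Ω) i) =
        ∑ i, N.x i * a i + N.x i0 * (-(w * u⁻¹ * b)) := by
      rw [← Finset.sum_congr rfl fun i _ => (mul_add (N.x i) (a i) _).symm,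
        Finset.sum_add_distrib]
      congr 1
      rw [Finset.sum_eq_single i0]
      · rw [Pi.single_eq_same]
      · intro i _ hi
        rw [Pi.single_eq_of_ne hi, mul_zero]
      · intro hi
        exact absurd (Finset.mem_univ i0) hi
    rw [hs, hfe, ht]
    field_simp
    ring

theorem degC (a : Ω) (P : Polynomial Ω) : (C a * P).degree ≤ P.degree := by
  refine (degree_mul_le _ _).trans ?_
  calc (C a).degree + P.degree ≤ 0 + P.degree := add_le_add degree_C_le le_rfl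
    _ = P.degree := zero_add _

/-- All orders. -/
theorem approx (h : Ctx k v r) (N : NF k v r) {t u w : Ω} {e : ℕ} (i0 : Fin r)
    (hu : u ∈ N.R) (hu0 : u ≠ 0) (hvu : v u = 0) (hw : w ∈ N.R)
    (ht : t = u * N.y ^ e + N.x i0 * w) (A : Subalgebra k Ω) (hxA : ∀ i, N.x i ∈ A)
    (htA : t ∈ A) (M : ℕ) :
    ∀ f ∈ N.R, ∃ P : Polynomial Ω, (∀ n, P.coeff n ∈ A) ∧ P.degree < e ∧
      Err N t M (f - P.eval N.y) := by
  induction M with
  | zero =>
    intro f hf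
    refine ⟨0, fun n => by simp, by simp, ?_⟩
    simpa [Err] using hf
  | succ M ih =>
    intro f hf
    obtain ⟨p, hp, a, ha, b, hb, hfe⟩ := step h N i0 hu hu0 hvu hw ht hf
    choose P hPc hPd hPe using fun i => ih (a i) (ha i)
    obtain ⟨Q, hQc, hQd, hQe⟩ := ih b hb
    refine ⟨p.map (algebraMap k Ω) + (∑ i, C (N.x i) * P i + C t * Q), fun n => ?_, ?_,
      fun i => a i - (P i).eval N.y, hPe, b - Q.eval N.y, hQe, ?_⟩
    · rw [coeff_add, coeff_map, coeff_add, finsetSum_coeff, coeff_C_mul]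
      refine A.add_mem (A.algebraMap_mem _) (A.add_mem (A.sum_mem fun i _ => ?_)
        (A.mul_mem htA (hQc n)))
      rw [coeff_C_mul]
      exact A.mul_mem (hxA i) (hPc i n)
    · refine lt_of_le_of_lt (degree_add_le _ _) (max_lt ?_ ?_)
      · exact lt_of_le_of_lt degree_map_le hp
      · refine lt_of_le_of_lt (degree_add_le _ _) (max_lt ?_ ?_)
        · refine lt_of_le_of_lt (degree_sum_le _ _) ?_
          rw [Finset.sup_lt_iff (lt_of_le_of_lt bot_le hQd)]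
          intro i _
          exact lt_of_le_of_lt (degC _ _) (hPd i)
        · exact lt_of_le_of_lt (degC _ _) hQd
    · rw [eval_add, eval_map_algebraMap, eval_add, eval_finsetSum, eval_mul, eval_C, hfe]
      simp only [eval_mul, eval_C]
      have : ∑ i, N.x i * (a i - (P i).eval N.y) =
          ∑ i, N.x i * a i - ∑ i, N.x i * (P i).eval N.y := by
        rw [← Finset.sum_sub_distrib]
        exact Finset.sum_congr rfl fun i _ => by ring
      rw [this]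
      ring

/-- **Density** (R7). -/
theorem density (h : Ctx k v r) (B : BF k v) {t : Ω} (htv : 0 < v t) {e : ℕ}
    (hrep : B.Rep t 0 e) {η : Ω} (hη : η ∈ B.R) (σ : ℝ) :
    ∃ P : Polynomial Ω, (∀ n, P.coeff n ∈
        Algebra.adjoin k (B.χ '' {γ | γ ∈ B.Γ ∧ 0 ≤ γ} ∪ {t})) ∧
      P.degree < e ∧ v.Ge σ (η - P.eval B.y) := by
  classical
  obtain ⟨-, u, hu, δ, hδ, hδ0, a, ha, hte⟩ := hrep
  rw [B.χ_zero, one_mul] at hte
  obtain ⟨S0, G, hS0, -, -, hG⟩ := B.exists_NF h {η, u, a} (by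
    intro f hf
    simp only [Finset.mem_insert, Finset.mem_singleton] at hf
    rcases hf with rfl | rfl | rfl
    · exact hη
    · exact hu.1
    · exact ha)
  obtain ⟨w, hw⟩ := B.exists_basis h (insert δ S0) (by
    intro γ hγ
    rcases Finset.mem_insert.1 hγ with rfl | hγ
    · exact ⟨hδ, hδ0⟩
    · exact hS0 γ hγ)
  have hw0 : GoodBasis B.Γ (S0 : Set ℝ) w :=
    ⟨hw.mem, hw.pos, hw.ind, hw.gen, fun γ hγ => hw.cone γ
      (Finset.mem_coe.2 (Finset.mem_insert_of_mem (Finset.mem_coe.1 hγ)))⟩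
  obtain ⟨N, hx, hNy, -, hNR, hTN⟩ := hG w hw0
  have hηN : η ∈ N.R := hTN η (by simp)
  have huN : u ∈ N.R := hTN u (by simp)
  have haN : a ∈ N.R := hTN a (by simp)
  obtain ⟨n, hn, hnδ⟩ := hw.cone δ (Finset.mem_coe.2 (Finset.mem_insert_self δ S0))
  have hprod : ∀ s : Finset (Fin r), (∑ i ∈ s, (n i : ℝ) * w i) ∈ B.Γ ∧
      B.χ (∑ i ∈ s, (n i : ℝ) * w i) = ∏ i ∈ s, N.x i ^ n i := by
    intro s
    induction s using Finset.induction_on with
    | empty => exact ⟨by simp [B.Γ.zero_mem], by simp [B.χ_zero]⟩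
    | insert i s hi ih =>
      have h1 : (n i : ℝ) * w i ∈ B.Γ := by
        rw [← nsmul_eq_mul]
        exact B.Γ.nsmul_mem (hw.mem i) _
      rw [Finset.sum_insert hi, Finset.prod_insert hi]
      refine ⟨B.Γ.add_mem h1 ih.1, ?_⟩
      rw [B.χ_add _ h1 _ ih.1, ih.2, B.χ_nsmul (hw.mem i), hx i]
  have h1 := (hprod Finset.univ).2
  rw [← hnδ] at h1
  let i0 : Fin r := ⟨0, h.rpos⟩
  have h2 : ∏ i, N.x i ^ n i = N.x i0 * (N.x i0 ^ (n i0 - 1) *
      ∏ i ∈ Finset.univ.erase i0, N.x i ^ n i) := by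
    rw [← Finset.mul_prod_erase Finset.univ _ (Finset.mem_univ i0), ← mul_assoc, ← pow_succ',
      Nat.sub_add_cancel (hn i0)]
  have h3 : N.x i0 ^ (n i0 - 1) * ∏ i ∈ Finset.univ.erase i0, N.x i ^ n i ∈ N.R :=
    N.R.mul_mem (N.R.pow_mem (N.x_mem i0) _)
      (N.R.prod_mem fun i _ => N.R.pow_mem (N.x_mem i) _)
  have ht : t = u * N.y ^ e + N.x i0 * ((N.x i0 ^ (n i0 - 1) *
      ∏ i ∈ Finset.univ.erase i0, N.x i ^ n i) * a) := by
    rw [hNy, hte, h1, h2]
    ring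
  set A : Subalgebra k Ω := Algebra.adjoin k (B.χ '' {γ | γ ∈ B.Γ ∧ 0 ≤ γ} ∪ {t}) with hA
  have hxA : ∀ i, N.x i ∈ A := fun i => by
    rw [hx i]
    exact Algebra.subset_adjoin (Or.inl ⟨w i, ⟨hw.mem i, (hw.pos i).le⟩, rfl⟩)
  have htA : t ∈ A := Algebra.subset_adjoin (Or.inr rfl)
  -- the lower bound of the values
  obtain ⟨μ, hμ0, hμx, hμt⟩ : ∃ μ : ℝ, 0 < μ ∧ (∀ i, μ ≤ v (N.x i)) ∧ μ ≤ v t := by
    have hne : (Finset.univ : Finset (Fin r)).Nonempty := ⟨i0, Finset.mem_univ _⟩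
    refine ⟨min (Finset.univ.inf' hne fun i => v (N.x i)) (v t), lt_min ?_ htv, fun i => ?_,
      min_le_right _ _⟩
    · rw [Finset.lt_inf'_iff]
      exact fun i _ => N.x_pos i
    · exact (min_le_left _ _).trans (Finset.inf'_le _ (Finset.mem_univ i))
  obtain ⟨M, hM⟩ := exists_nat_ge (σ / μ)
  obtain ⟨P, hPc, hPd, hPe⟩ := approx h N i0 huN hu.2.1 hu.2.2
    (N.R.mul_mem h3 haN) ht A hxA htA M η hηN
  refine ⟨P, hPc, hPd, ?_⟩
  have h4 := Err.ge (μ := μ) (fun i _ => hμx i) (fun _ => hμt) M _ hPe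
  rw [hNy] at h4
  refine h4.mono ?_
  rwa [div_le_iff₀ hμ0] at hM

/-- Density for a pair `(S, B)`: coefficients in `S.R`. -/
theorem density_pair (h : Ctx k v r) (B S : BF k v)
    (hχ : ∀ γ ∈ B.Γ, 0 ≤ γ → B.χ γ ∈ S.R) {e : ℕ} (hrep : B.Rep S.y 0 e) {η : Ω}
    (hη : η ∈ B.R) (σ : ℝ) :
    ∃ P : Polynomial Ω, (∀ n, P.coeff n ∈ S.R) ∧ P.degree < e ∧ v.Ge σ (η - P.eval B.y) := by
  obtain ⟨P, hPc, hPd, hPe⟩ := density h B S.y_pos hrep hη σ
  refine ⟨P, fun n => ?_, hPd, hPe⟩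
  refine (Algebra.adjoin_le ?_ : Algebra.adjoin k _ ≤ S.R) (hPc n)
  rintro f (⟨γ, ⟨hγ, h0⟩, rfl⟩ | hf)
  · exact hχ γ hγ h0
  · rw [Set.mem_singleton_iff.1 hf]
    exact S.y_mem

end Pool.Agent.D2h2
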