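import Pool.Agent.Lib.D2_h2.Drop
import Pool.Agent.Lib.LU3.ZStep
import Pool.Agent.Lib.LU3.TReach

/-!
# DefectTwo: `Drop` from a frame reached by T-steps
-/

set_option autoImplicit false

open Polynomial

namespace Pool.Agent.LU3

open Pool.Agent.LU1
open Pool.Agent.H15JM (RVal)

universe u

variable {k Ω : Type u} [Field k] [Field Ω] [Algebra k Ω] {v : RVal Ω} {r : ℕ}
  {Ω₀ : IntermediateField k Ω}

/-- The end of the step for a frame `S` above `B`. -/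
theorem drop_of_ble {z : Ω} (hC : Core k v r Ω₀ z) {F : RF2 k v} {B S : BF k (resv v Ω₀)}
    (hF : IsRF2 F B z) (hB : BLe B S) (hr : BRat S) {A : Polynomial Ω₀} {m l : ℕ} {a : ℝ}
    {ψ : Ω₀} (hψ : ψ ∈ S.R) (haΓ : a ∈ S.Γ) (ha0 : 0 ≤ a) (hv : a < v (z - (ψ : Ω)))
    (hmem : ∀ j : ℕ, (hasseDeriv j A).eval ψ * S.χ (((j : ℝ) - m) * a) ∈ S.R)
    (hrep : S.Rep (A.eval ψ * S.χ (-((m : ℝ) * a))) 0 l) (hl : l < m) :
    F.Drop (aeval z A) m := by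
  have hχa : ((S.χ a : Ω₀) : Ω) ≠ 0 := fun h => S.χ_ne a haΓ (Subtype.ext h)
  have hzψ : z - (ψ : Ω) ≠ 0 := by
    intro h
    apply hC.z_not
    rw [sub_eq_zero.1 h]
    exact ψ.2
  set z' : Ω := (z - (ψ : Ω)) / ((S.χ a : Ω₀) : Ω) - algebraMap k Ω 0 with hz'
  have hz'' : z' = (z - (ψ : Ω)) / ((S.χ a : Ω₀) : Ω) := by rw [hz', map_zero, sub_zero]
  have hχv : v ((S.χ a : Ω₀) : Ω) = a := S.χ_val a haΓ
  have hpos : 0 < v z' := by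
    rw [hz'', v.map_div hzψ hχa, hχv]
    linarith
  obtain ⟨F', hFF', hF'⟩ := exists_z0 hC hF hB hr hψ haΓ ha0 hz' hpos
  refine drop_of hFF' hF' haΓ ?_ hmem ?_ hl
  · rw [hz'', mul_div_cancel₀ _ hχa]; ring
  · rw [neg_mul]; exact hrep

/-- The end of the step for a frame `S` reached from `B`. -/
theorem drop_of_treach {z : Ω} (hC : Core k v r Ω₀ z) {F : RF2 k v} {B S : BF k (resv v Ω₀)}
    (hF : IsRF2 F B z) (hS : TReach B S) {A : Polynomial Ω₀} {m l : ℕ} {a : ℝ}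
    {ψ : Ω₀} (hψ : ψ ∈ S.R) (haΓ : a ∈ S.Γ) (ha0 : 0 ≤ a) (hv : a < v (z - (ψ : Ω)))
    (hmem : ∀ j : ℕ, (hasseDeriv j A).eval ψ * S.χ (((j : ℝ) - m) * a) ∈ S.R)
    (hrep : S.Rep (A.eval ψ * S.χ (-((m : ℝ) * a))) 0 l) (hl : l < m) :
    F.Drop (aeval z A) m :=
  drop_of_ble hC hF hS.ble (hS.brat hF.rat) hψ haΓ ha0 hv hmem hrep hl

end Pool.Agent.LU3
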