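import Pool.Agent.Lib.D2_h2.Key25

/-!
# DefectTwo, row R15: the last step (3c) of the case of a group which is not finitely generated

`A = ∑ f_s G^s`, `ψ ∈ S.R`, `a ∈ Γ`.  We show that the coefficients `A^[j](ψ) χ((j - m) a)` of
`A(ψ + χ(a) Z) / χ(m a)` are in `S.R` and that the constant one has content `0` and order
`s_0 D`.
-/

set_option autoImplicit false

open Polynomial

namespace Pool.Agent.D2h2

open Pool.Agent.LU1 Pool.Agent.LU1.BF Pool.Agent.LU1.RepAux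
open Pool.Agent.H15JM (RVal)

universe u

variable {k Ω : Type u} [Field k] [Field Ω] [Algebra k Ω] {v : RVal Ω} {r : ℕ}

/-- `z ∈ χ(κ) R`. -/
def Dv (B : BF k v) (κ : ℝ) (z : Ω) : Prop := ∃ b ∈ B.R, z = B.χ κ * b

theorem Dv.zero {B : BF k v} {κ : ℝ} : Dv B κ 0 := ⟨0, B.R.zero_mem, by rw [mul_zero]⟩

theorem Dv.add {B : BF k v} {κ : ℝ} {z t : Ω} (hz : Dv B κ z) (ht : Dv B κ t) :
    Dv B κ (z + t) := by
  obtain ⟨a, ha, rfl⟩ := hz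
  obtain ⟨b, hb, rfl⟩ := ht
  exact ⟨a + b, B.R.add_mem ha hb, by ring⟩

theorem Dv.sum {B : BF k v} {κ : ℝ} {ι : Type*} (s : Finset ι) (f : ι → Ω)
    (hf : ∀ i ∈ s, Dv B κ (f i)) : Dv B κ (∑ i ∈ s, f i) :=
  Finset.sum_induction _ (Dv B κ) (fun _ _ => Dv.add) Dv.zero hf

theorem Dv.mul {B : BF k v} {κ κ' : ℝ} (hκ : κ ∈ B.Γ) (hκ' : κ' ∈ B.Γ) {z t : Ω}
    (hz : Dv B κ z) (ht : Dv B κ' t) : Dv B (κ + κ') (z * t) := by
  obtain ⟨a, ha, rfl⟩ := hz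
  obtain ⟨b, hb, rfl⟩ := ht
  exact ⟨a * b, B.R.mul_mem ha hb, by rw [B.χ_add κ hκ κ' hκ']; ring⟩

theorem Dv.mul_mem {B : BF k v} {κ : ℝ} {z t : Ω} (hz : Dv B κ z) (ht : t ∈ B.R) :
    Dv B κ (z * t) := by
  obtain ⟨a, ha, rfl⟩ := hz
  exact ⟨a * t, B.R.mul_mem ha ht, by ring⟩

theorem Dv.mono {B : BF k v} {κ κ' : ℝ} (hκ : κ ∈ B.Γ) (hκ' : κ' ∈ B.Γ) (hle : κ' ≤ κ) {z : Ω}
    (hz : Dv B κ z) : Dv B κ' z := by
  obtain ⟨a, ha, rfl⟩ := hz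
  refine ⟨B.χ (κ - κ') * a, B.R.mul_mem (B.χ_mem _ (B.Γ.sub_mem hκ hκ') (by linarith)) ha, ?_⟩
  rw [← mul_assoc, ← B.χ_add κ' hκ' _ (B.Γ.sub_mem hκ hκ')]
  congr 2
  ring

theorem Dv.of_hi {B : BF k v} {κ : ℝ} (hκ : κ ∈ B.Γ) {z : Ω} (hz : Hi B κ z) : Dv B κ z := by
  obtain ⟨γ, hγ, h1, a, ha, rfl⟩ := hz
  exact Dv.mono hγ hκ h1.le ⟨a, ha, rfl⟩

theorem Dv.of_rep {B : BF k v} {κ : ℝ} {z : Ω} {D : ℕ} (hz : B.Rep z κ D) : Dv B κ z := by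
  obtain ⟨hκ, u, hu, δ, hδ, hδ0, a, ha, rfl⟩ := hz
  exact ⟨_, B.R.add_mem (B.R.mul_mem hu.1 (B.R.pow_mem B.y_mem D))
    (B.R.mul_mem (B.χ_mem δ hδ hδ0.le) ha), rfl⟩

theorem Dv.hi {B : BF k v} {κ κ' : ℝ} (hκ : κ ∈ B.Γ) (hlt : κ' < κ) {z : Ω} (hz : Dv B κ z) :
    Hi B κ' z := by
  obtain ⟨a, ha, rfl⟩ := hz
  exact ⟨κ, hκ, hlt, a, ha, rfl⟩

theorem Dv.pow {B : BF k v} {κ : ℝ} (hκ : κ ∈ B.Γ) {z : Ω} (hz : Dv B κ z) (n : ℕ) :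
    Dv B (n * κ) (z ^ n) := by
  obtain ⟨a, ha, rfl⟩ := hz
  exact ⟨a ^ n, B.R.pow_mem ha n, by rw [B.χ_nsmul hκ, mul_pow]⟩

/-- The sum of an element with a known representation and of one of higher content. -/
theorem rep_add_hi {B : BF k v} {f g : Ω} {κ : ℝ} {D : ℕ} (h1 : B.Rep f κ D) (h2 : Hi B κ g) :
    B.Rep (f + g) κ D := by
  obtain ⟨γ, hγ, hlt, a, ha, rfl⟩ := h2
  exact h1.add_mem hγ hlt ha

theorem hi_sum {B : BF k v} {κ : ℝ} (hκ : κ ∈ B.Γ) {ι : Type*} (s : Finset ι) (f : ι → Ω)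
    (hf : ∀ i ∈ s, Hi B κ (f i)) : Hi B κ (∑ i ∈ s, f i) :=
  Finset.sum_induction _ (Hi B κ) (fun _ _ => Hi.add) (Hi.zero B hκ) hf

/-! ## Polynomials in `Z` with coefficients in `χ(κ) R` -/

/-- All coefficients are in `χ(κ) R`. -/
def DvP (B : BF k v) (κ : ℝ) (P : Polynomial Ω) : Prop := ∀ i, Dv B κ (P.coeff i)

theorem DvP.zero {B : BF k v} {κ : ℝ} : DvP B κ 0 := fun i => by
  rw [coeff_zero]; exact Dv.zero

theorem DvP.add {B : BF k v} {κ : ℝ} {P Q : Polynomial Ω} (hP : DvP B κ P) (hQ : DvP B κ Q) :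
    DvP B κ (P + Q) := fun i => by rw [coeff_add]; exact (hP i).add (hQ i)

theorem DvP.mul {B : BF k v} {κ κ' : ℝ} (hκ : κ ∈ B.Γ) (hκ' : κ' ∈ B.Γ) {P Q : Polynomial Ω}
    (hP : DvP B κ P) (hQ : DvP B κ' Q) : DvP B (κ + κ') (P * Q) := fun i => by
  rw [coeff_mul]
  exact Dv.sum _ _ fun x _ => (hP _).mul hκ hκ' (hQ _)

theorem DvP.one {B : BF k v} : DvP B 0 (1 : Polynomial Ω) := fun i => by
  rw [coeff_one]
  split_ifs
  · exact ⟨1, B.R.one_mem, by rw [B.χ_zero, one_mul]⟩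
  · exact Dv.zero

theorem DvP.pow {B : BF k v} {κ : ℝ} (hκ : κ ∈ B.Γ) {P : Polynomial Ω} (hP : DvP B κ P)
    (n : ℕ) : DvP B (n * κ) (P ^ n) := by
  induction n with
  | zero => rw [Nat.cast_zero, zero_mul, pow_zero]; exact DvP.one
  | succ n ih =>
    have hn : (n : ℝ) * κ ∈ B.Γ := by rw [← nsmul_eq_mul]; exact B.Γ.nsmul_mem hκ n
    have h1 := ih.mul hn hκ hP
    rw [pow_succ]
    have e1 : ((n + 1 : ℕ) : ℝ) * κ = n * κ + κ := by push_cast; ring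
    rw [e1]
    exact h1

theorem DvP.mono {B : BF k v} {κ κ' : ℝ} (hκ : κ ∈ B.Γ) (hκ' : κ' ∈ B.Γ) (hle : κ' ≤ κ)
    {P : Polynomial Ω} (hP : DvP B κ P) : DvP B κ' P := fun i => (hP i).mono hκ hκ' hle

/-- `P(ψ + c Z)`. -/
noncomputable def sc (ψ c : Ω) (P : Polynomial Ω) : Polynomial Ω := (taylor ψ P).comp (C c * X)

theorem sc_coeff (ψ c : Ω) (P : Polynomial Ω) (i : ℕ) :
    (sc ψ c P).coeff i = (hasseDeriv i P).eval ψ * c ^ i := by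
  rw [sc, comp_C_mul_X_coeff, taylor_coeff]

theorem sc_mul (ψ c : Ω) (P Q : Polynomial Ω) : sc ψ c (P * Q) = sc ψ c P * sc ψ c Q := by
  rw [sc, taylor_mul, mul_comp, sc, sc]

theorem sc_one (ψ c : Ω) : sc ψ c 1 = 1 := by
  rw [sc, taylor_one, C_1, one_comp]

theorem sc_pow (ψ c : Ω) (P : Polynomial Ω) (n : ℕ) : sc ψ c (P ^ n) = sc ψ c P ^ n := by
  induction n with
  | zero => rw [pow_zero, pow_zero, sc_one]
  | succ n ih => rw [pow_succ, pow_succ, sc_mul, ih]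

theorem sc_sum (ψ c : Ω) {ι : Type*} (s : Finset ι) (f : ι → Polynomial Ω) :
    sc ψ c (∑ i ∈ s, f i) = ∑ i ∈ s, sc ψ c (f i) := by
  rw [sc, map_sum, ← coe_compRingHom_apply, map_sum]
  rfl

/-! ## The last step -/

/-- The last step: from `A = ∑ f_s G^s` to the coefficients of `A(ψ + χ(a) Z) / χ(m a)`. -/
theorem final3c {S : BF k v} {A G : Polynomial Ω} {N : ℕ} {f : ℕ → Polynomial Ω}
    (hAf : A = ∑ s ∈ Finset.range N, f s * G ^ s) {ψ : Ω} {a : ℝ}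
    (haΓ : a ∈ S.Γ) {κG : ℝ} {D : ℕ} (hG0 : S.Rep (G.eval ψ) κG D)
    (hG : ∀ i : ℕ, Dv S κG ((hasseDeriv i G).eval ψ * S.χ ((i : ℝ) * a)))
    {Φ : ℕ → ℝ} (hf : ∀ s, f s ≠ 0 → S.Rep ((f s).eval ψ) (Φ s) 0 ∧
      ∀ i : ℕ, Dv S (Φ s) ((hasseDeriv i (f s)).eval ψ * S.χ ((i : ℝ) * a)))
    {s0 m : ℕ} (hs0 : s0 < N) (hfs0 : f s0 ≠ 0) (hm : Φ s0 + s0 * κG = m * a)
    (hl : ∀ s, s ≠ s0 → f s ≠ 0 → (m : ℝ) * a < Φ s + s * κG) :
    (∀ j : ℕ, (hasseDeriv j A).eval ψ * S.χ (((j : ℝ) - m) * a) ∈ S.R) ∧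
      S.Rep (A.eval ψ * S.χ ((-(m : ℝ)) * a)) 0 (s0 * D) := by
  classical
  have hκG := hG0.1
  have hmul : ∀ n : ℕ, (n : ℝ) * a ∈ S.Γ := fun n => by
    rw [← nsmul_eq_mul]; exact S.Γ.nsmul_mem haΓ n
  have hmulκ : ∀ n : ℕ, (n : ℝ) * κG ∈ S.Γ := fun n => by
    rw [← nsmul_eq_mul]; exact S.Γ.nsmul_mem hκG n
  have hle : ∀ s, f s ≠ 0 → (m : ℝ) * a ≤ Φ s + s * κG := by
    intro s hs
    by_cases h0 : s = s0
    · subst h0; exact hm.ge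
    · exact (hl s h0 hs).le
  have hGP : DvP S κG (sc ψ (S.χ a) G) := fun i => by
    rw [sc_coeff, ← S.χ_nsmul haΓ]; exact hG i
  have hAP : DvP S (m * a) (sc ψ (S.χ a) A) := by
    rw [hAf, sc_sum]
    refine Finset.sum_induction _ (DvP S (m * a)) (fun _ _ => DvP.add) DvP.zero fun s _ => ?_
    by_cases h0 : f s = 0
    · rw [h0, zero_mul]
      have : sc ψ (S.χ a) 0 = 0 := by rw [sc, map_zero, zero_comp]
      rw [this]; exact DvP.zero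
    · obtain ⟨h1, h2⟩ := hf s h0
      have hfP : DvP S (Φ s) (sc ψ (S.χ a) (f s)) := fun i => by
        rw [sc_coeff, ← S.χ_nsmul haΓ]; exact h2 i
      rw [sc_mul, sc_pow]
      exact (hfP.mul h1.1 (hmulκ s) (hGP.pow hκG s)).mono
        (S.Γ.add_mem h1.1 (hmulκ s)) (hmul m) (hle s h0)
  have hneg : -((m : ℝ) * a) ∈ S.Γ := S.Γ.neg_mem (hmul m)
  refine ⟨fun j => ?_, ?_⟩
  · obtain ⟨b, hb, hbe⟩ := hAP j
    rw [sc_coeff, ← S.χ_nsmul haΓ] at hbe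
    have e1 : S.χ (((j : ℝ) - m) * a) = S.χ ((j : ℝ) * a) * (S.χ ((m : ℝ) * a))⁻¹ := by
      rw [← S.χ_neg (hmul m), ← S.χ_add _ (hmul j) _ hneg]
      congr 1
      ring
    rw [e1, ← mul_assoc, hbe, mul_comm (S.χ _) b, mul_assoc, mul_inv_cancel₀
      (S.χ_ne _ (hmul m)), mul_one]
    exact hb
  · have hterm : ∀ s, f s ≠ 0 → S.Rep ((f s).eval ψ * G.eval ψ ^ s) (Φ s + s * κG) (s * D) := by
      intro s hs
      have h1 := (hf s hs).1.mul (hG0.pow s)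
      rwa [zero_add] at h1
    have hA : S.Rep (A.eval ψ) (m * a) (s0 * D) := by
      have e1 : A.eval ψ = (f s0).eval ψ * G.eval ψ ^ s0 +
          ∑ s ∈ (Finset.range N).erase s0, (f s).eval ψ * G.eval ψ ^ s := by
        rw [hAf, eval_finsetSum, ← Finset.add_sum_erase _ _ (Finset.mem_range.2 hs0)]
        simp only [eval_mul, eval_pow]
      rw [e1]
      refine rep_add_hi ?_ (hi_sum (hmul m) _ _ fun s hs => ?_)
      · have := hterm s0 hfs0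
        rwa [hm] at this
      · by_cases h0 : f s = 0
        · rw [h0, eval_zero, zero_mul]; exact Hi.zero S (hmul m)
        · have h1 := hterm s h0
          exact (Dv.of_rep h1).hi h1.1 (hl s (Finset.ne_of_mem_erase hs) h0)
    have h1 := hA.mul (S.rep_χ hneg)
    rw [add_neg_cancel, add_zero] at h1
    have e2 : (-(m : ℝ)) * a = -((m : ℝ) * a) := by ring
    rw [e2]
    exact h1

/-! ## Transport of the Kaplansky inequalities -/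

/-- The Kaplansky inequalities for `P` at `ψ0` (with content `α0`): all `P^[j](ψ0)` are `0` or
monomials, `P(ψ0) ≠ 0` and `v(P^[j](ψ0)) + j α0 > v(P(ψ0))` for `j ≥ 1`. -/
structure Kap (S : BF k v) (P : Polynomial Ω) (ψ0 : Ω) (α0 : ℝ) : Prop where
  mono : ∀ j : ℕ, (hasseDeriv j P).eval ψ0 = 0 ∨ S.Mono ((hasseDeriv j P).eval ψ0)
  ne : P.eval ψ0 ≠ 0
  lt : ∀ j : ℕ, 1 ≤ j → (hasseDeriv j P).eval ψ0 ≠ 0 →
    v (P.eval ψ0) < v ((hasseDeriv j P).eval ψ0) + j * α0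

theorem Kap.mono0 {S : BF k v} {P : Polynomial Ω} {ψ0 : Ω} {α0 : ℝ} (hK : Kap S P ψ0 α0) :
    S.Mono (P.eval ψ0) := by
  rcases hK.mono 0 with h0 | h0
  · rw [hasseDeriv_zero'] at h0; exact absurd h0 hK.ne
  · rwa [hasseDeriv_zero'] at h0

theorem dv_of_mono {S : BF k v} {z : Ω} (hz : S.Mono z) : Dv S (v z) z := by
  obtain ⟨h0, h1, h2⟩ := hz
  exact ⟨_, h2.1, by rw [mul_div_cancel₀ _ (S.χ_ne _ h1)]⟩

/-- At a point `ψ` with `ψ - ψ0 ∈ χ(α0) S.R` and for `a ≥ α0`: `P^[i](ψ) χ(i a)` has content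
`> v(P(ψ0))` for `i ≥ 1`. -/
theorem Kap.hi {S : BF k v} {P : Polynomial Ω} {ψ0 : Ω} {α0 : ℝ} (hK : Kap S P ψ0 α0)
    (hα0 : α0 ∈ S.Γ) {ψ : Ω} (hψ : Dv S α0 (ψ - ψ0)) {a : ℝ} (ha : a ∈ S.Γ) (haα : α0 ≤ a)
    {i : ℕ} (hi : 1 ≤ i) :
    Hi S (v (P.eval ψ0)) ((hasseDeriv i P).eval ψ * S.χ ((i : ℝ) * a)) := by
  have hΓ : v (P.eval ψ0) ∈ S.Γ := hK.mono0.2.1
  have hia : (i : ℝ) * a ∈ S.Γ := by rw [← nsmul_eq_mul]; exact S.Γ.nsmul_mem ha i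
  rw [eval_hasse_sum P ψ0 ψ i, Finset.sum_mul]
  refine hi_sum hΓ _ _ fun n _ => ?_
  rcases hK.mono (n + i) with h0 | h0
  · rw [h0, mul_zero, zero_mul, zero_mul]; exact Hi.zero S hΓ
  · have hnα : (n : ℝ) * α0 ∈ S.Γ := by rw [← nsmul_eq_mul]; exact S.Γ.nsmul_mem hα0 n
    have h1 := ((dv_of_mono h0).mul h0.2.1 hnα (hψ.pow hα0 n)).mul
      (S.Γ.add_mem h0.2.1 hnα) hia (κ' := (i : ℝ) * a) (t := S.χ ((i : ℝ) * a))
      ⟨1, S.R.one_mem, by rw [mul_one]⟩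
    have h2 := h1.mul_mem (natCast_mem S.R ((n + i).choose n))
    have h3 : ((n + i).choose n : Ω) * (hasseDeriv (n + i) P).eval ψ0 * (ψ - ψ0) ^ n *
        S.χ ((i : ℝ) * a) = (hasseDeriv (n + i) P).eval ψ0 * (ψ - ψ0) ^ n *
        S.χ ((i : ℝ) * a) * ((n + i).choose n : Ω) := by ring
    rw [h3]
    refine h2.hi (S.Γ.add_mem (S.Γ.add_mem h0.2.1 hnα) hia) ?_
    have h4 := hK.lt (n + i) (by omega) h0.1
    have h5 : (i : ℝ) * α0 ≤ i * a := mul_le_mul_of_nonneg_left haα (Nat.cast_nonneg i)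
    push_cast at h4
    linarith

/-- At such a point `P(ψ)` is a monomial of the same value. -/
theorem Kap.rep {S : BF k v} {P : Polynomial Ω} {ψ0 : Ω} {α0 : ℝ} (hK : Kap S P ψ0 α0)
    (hα0 : α0 ∈ S.Γ) {ψ : Ω} (hψ : Dv S α0 (ψ - ψ0)) : S.Rep (P.eval ψ) (v (P.eval ψ0)) 0 := by
  have hΓ : v (P.eval ψ0) ∈ S.Γ := hK.mono0.2.1
  rw [eval_taylor_sum P ψ0 ψ (Nat.lt_succ_self _), Finset.sum_range_succ']
  rw [hasseDeriv_zero', pow_zero, mul_one, add_comm]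
  refine rep_add_hi hK.mono0.rep (hi_sum hΓ _ _ fun n _ => ?_)
  rcases hK.mono (n + 1) with h0 | h0
  · rw [h0, zero_mul]; exact Hi.zero S hΓ
  · have hnα : ((n + 1 : ℕ) : ℝ) * α0 ∈ S.Γ := by
      rw [← nsmul_eq_mul]; exact S.Γ.nsmul_mem hα0 (n + 1)
    have h1 := (dv_of_mono h0).mul h0.2.1 hnα (hψ.pow hα0 (n + 1))
    exact h1.hi (S.Γ.add_mem h0.2.1 hnα) (hK.lt (n + 1) (by omega) h0.1)

theorem Kap.dv {S : BF k v} {P : Polynomial Ω} {ψ0 : Ω} {α0 : ℝ} (hK : Kap S P ψ0 α0)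
    (hα0 : α0 ∈ S.Γ) {ψ : Ω} (hψ : Dv S α0 (ψ - ψ0)) {a : ℝ} (ha : a ∈ S.Γ) (haα : α0 ≤ a)
    (i : ℕ) : Dv S (v (P.eval ψ0)) ((hasseDeriv i P).eval ψ * S.χ ((i : ℝ) * a)) := by
  rcases Nat.eq_zero_or_pos i with h0 | h0
  · subst h0
    rw [hasseDeriv_zero', Nat.cast_zero, zero_mul, S.χ_zero, mul_one]
    exact Dv.of_rep (hK.rep hα0 hψ)
  · exact Dv.of_hi hK.mono0.2.1 (hK.hi hα0 hψ ha haα h0)

/-- **Row R15**: the last step in the case of a group which is not finitely generated.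
`q` is the number of roots of `G` near `z`, `m = s0 q`, `ψ = ψ1 + χ(α1) θ`, `a = α1 + κ`,
where `H(θ) = G(ψ) / (G^[q](ψ0) χ(q α1))` has content `q κ` and order `D`. -/
theorem row15 {S : BF k v} {A G : Polynomial Ω} {N : ℕ} {f : ℕ → Polynomial Ω}
    (hAf : A = ∑ s ∈ Finset.range N, f s * G ^ s) {q s0 : ℕ} (hq : 1 ≤ q) (hs0 : s0 < N)
    {ψ0 ψ1 θ : Ω} (hθ : θ ∈ S.R)
    {α0 α1 κ ρ σ : ℝ} (hα0 : α0 ∈ S.Γ) (hα1 : α1 ∈ S.Γ) (h01 : α0 < α1) (hρ : ρ ≤ α0)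
    (hκ : κ ∈ S.Γ) (hκ0 : 0 ≤ κ) (haσ : α1 + κ < σ)
    (h10 : Dv S α0 (ψ1 - ψ0))
    (hKG : ∀ i : ℕ, 1 ≤ i → hasseDeriv i G ≠ 0 → Kap S (hasseDeriv i G) ψ0 α0)
    (hGq : hasseDeriv q G ≠ 0)
    (hlow : ∀ i : ℕ, 1 ≤ i → i < q → hasseDeriv i G ≠ 0 →
      v ((hasseDeriv q G).eval ψ0) + ((q : ℝ) - i) * σ ≤ v ((hasseDeriv i G).eval ψ0))
    (hhigh : ∀ i : ℕ, q < i → hasseDeriv i G ≠ 0 →
      v ((hasseDeriv q G).eval ψ0) - ((i : ℝ) - q) * ρ ≤ v ((hasseDeriv i G).eval ψ0))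
    (hKf : ∀ s, f s ≠ 0 → Kap S (f s) ψ0 α0) (hfs0 : f s0 ≠ 0)
    (hm : v ((f s0).eval ψ0) + s0 * v ((hasseDeriv q G).eval ψ0) = 0)
    (hl : ∀ s, s ≠ s0 → f s ≠ 0 → ((s0 * q : ℕ) : ℝ) * (α1 + κ) < v ((f s).eval ψ0) +
      s * (v ((hasseDeriv q G).eval ψ0) + q * (α1 + κ)))
    {D : ℕ} (hH : S.Rep (G.eval (ψ1 + S.χ α1 * θ) /
      ((hasseDeriv q G).eval ψ0 * S.χ ((q : ℝ) * α1))) (q * κ) D) :
    (∀ j : ℕ, (hasseDeriv j A).eval (ψ1 + S.χ α1 * θ) *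
        S.χ (((j : ℝ) - (s0 * q : ℕ)) * (α1 + κ)) ∈ S.R) ∧
      S.Rep (A.eval (ψ1 + S.χ α1 * θ) * S.χ ((-((s0 * q : ℕ) : ℝ)) * (α1 + κ))) 0 (s0 * D) := by
  set ψ : Ω := ψ1 + S.χ α1 * θ with hψdef
  set a : ℝ := α1 + κ with hadef
  have ha : a ∈ S.Γ := S.Γ.add_mem hα1 hκ
  have haα : α0 ≤ a := by linarith
  have hψ : Dv S α0 (ψ - ψ0) := by
    have e1 : ψ - ψ0 = (ψ1 - ψ0) + S.χ α1 * θ := by rw [hψdef]; ring
    rw [e1]
    exact h10.add (Dv.mono hα1 hα0 h01.le ⟨θ, hθ, rfl⟩)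
  have hKq := hKG q hq hGq
  have hMq : S.Mono ((hasseDeriv q G).eval ψ0) := hKq.mono0
  have hqα1 : (q : ℝ) * α1 ∈ S.Γ := by rw [← nsmul_eq_mul]; exact S.Γ.nsmul_mem hα1 q
  have hqa : (q : ℝ) * a ∈ S.Γ := by rw [← nsmul_eq_mul]; exact S.Γ.nsmul_mem ha q
  have hq0 : (0 : ℝ) < q := by exact_mod_cast hq
  -- the representation of `G(ψ)`
  have hGrep : S.Rep (G.eval ψ) (v ((hasseDeriv q G).eval ψ0) + q * a) D := by
    have h1 := (hMq.rep.mul (S.rep_χ hqα1)).mul hH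
    have hne : (hasseDeriv q G).eval ψ0 * S.χ ((q : ℝ) * α1) ≠ 0 :=
      mul_ne_zero hMq.1 (S.χ_ne _ hqα1)
    rw [mul_div_cancel₀ _ hne] at h1
    have e1 : v ((hasseDeriv q G).eval ψ0) + q * a =
        v ((hasseDeriv q G).eval ψ0) + q * α1 + q * κ := by rw [hadef]; ring
    rw [e1]
    simpa using h1
  have hκG : v ((hasseDeriv q G).eval ψ0) + q * a ∈ S.Γ := hGrep.1
  refine final3c hAf ha (κG := v ((hasseDeriv q G).eval ψ0) + q * a) (D := D) hGrep ?_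
    (Φ := fun s => v ((f s).eval ψ0)) ?_ hs0 hfs0 ?_ hl
  · intro i
    rcases Nat.eq_zero_or_pos i with h0 | h0
    · subst h0
      rw [hasseDeriv_zero', Nat.cast_zero, zero_mul, S.χ_zero, mul_one]
      exact Dv.of_rep hGrep
    · by_cases hGi : hasseDeriv i G = 0
      · rw [hGi, eval_zero, zero_mul]; exact Dv.zero
      · have hK := hKG i h0 hGi
        have hia : (i : ℝ) * a ∈ S.Γ := by rw [← nsmul_eq_mul]; exact S.Γ.nsmul_mem ha i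
        have h1 : Dv S (v ((hasseDeriv i G).eval ψ0) + i * a)
            ((hasseDeriv i G).eval ψ * S.χ ((i : ℝ) * a)) :=
          (Dv.of_rep (hK.rep hα0 hψ)).mul hK.mono0.2.1 hia ⟨1, S.R.one_mem, by rw [mul_one]⟩
        refine h1.mono (S.Γ.add_mem hK.mono0.2.1 hia) hκG ?_
        rcases lt_trichotomy i q with hlt | heq | hgt
        · have h2 := hlow i h0 hlt hGi
          have h3 : (0 : ℝ) < (q : ℝ) - i := by
            have : (i : ℝ) < q := by exact_mod_cast hlt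
            linarith
          have h4 : 0 < ((q : ℝ) - i) * (σ - a) := mul_pos h3 (by linarith)
          nlinarith
        · rw [heq]
        · have h2 := hhigh i hgt hGi
          have h3 : (0 : ℝ) < (i : ℝ) - q := by
            have : (q : ℝ) < i := by exact_mod_cast hgt
            linarith
          have h4 : 0 ≤ ((i : ℝ) - q) * (a - ρ) := mul_nonneg h3.le (by linarith)
          nlinarith
  · intro s hs
    exact ⟨(hKf s hs).rep hα0 hψ, (hKf s hs).dv hα0 hψ ha haα⟩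
  · have e1 : v ((f s0).eval ψ0) + s0 * (v ((hasseDeriv q G).eval ψ0) + q * a) =
        (v ((f s0).eval ψ0) + s0 * v ((hasseDeriv q G).eval ψ0)) + s0 * (q * a) := by ring
    rw [e1, hm, zero_add]
    push_cast
    ring

end Pool.Agent.D2h2
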