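import Pool.Agent.Lib.LU1_h15.Rep

/-!
# DefectTwo, row R8b: the key computation (2.5)

`S ⊆ C` frames with the same monomials, `C.Rep S.y 0 e`.  If `η - ψ = χ(a) s`, where
`ψ ∈ S.R`, `C.Rep s 0 D`, `1 ≤ D < e`, and the Hasse derivatives of `A` at `η` behave like those
of a product of `m` factors `η - ζ` of value `≥ σ > a`, then the coefficients
`g_j = A^[j](ψ) χ((j - m) a)` of `A(ψ + χ(a) Z) / χ(m a)` are in `S.R`, and the constant one has
content `0` and order `l < m`.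
-/

set_option autoImplicit false

open Polynomial

namespace Pool.Agent.D2h2

open Pool.Agent.LU1 Pool.Agent.LU1.BF Pool.Agent.LU1.RepAux
open Pool.Agent.H15JM (RVal)

universe u

variable {k Ω : Type u} [Field k] [Field Ω] [Algebra k Ω] {v : RVal Ω} {r : ℕ}

/-- The data shared by a pair of frames: `S ⊆ C`, same group, same monomials. -/
structure Under (S C : BF k v) : Prop where
  R_le : S.R ≤ C.R
  Γ_eq : C.Γ = S.Γ
  χ_eq : ∀ γ ∈ S.Γ, C.χ γ = S.χ γ

theorem Under.un {S C : BF k v} (hU : Under S C) {u : Ω} (hu : S.Un u) : C.Un u :=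
  ⟨hU.R_le hu.1, hu.2.1, hu.2.2⟩

/-- Contents are preserved and orders are multiplied by `e`. -/
theorem Under.rep {S C : BF k v} (hU : Under S C) {e : ℕ} (hy : C.Rep S.y 0 e) {f : Ω} {κ : ℝ}
    {l : ℕ} (hf : S.Rep f κ l) : C.Rep f κ (l * e) := by
  obtain ⟨hκ, u, hu, δ, hδ, hδ0, a, ha, rfl⟩ := hf
  have hκC : κ ∈ C.Γ := by rw [hU.Γ_eq]; exact hκ
  have hδC : δ ∈ C.Γ := by rw [hU.Γ_eq]; exact hδ
  have h1 : C.Rep (S.χ κ) κ 0 := by rw [← hU.χ_eq κ hκ]; exact C.rep_χ hκC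
  have h2 : C.Rep u 0 0 := by
    have := (Mono.un (hU.un hu)).rep
    rwa [hu.2.2] at this
  have h3 := h2.mul (hy.pow l)
  rw [mul_zero, add_zero, zero_add] at h3
  have h4 : C.Rep (u * S.y ^ l + C.χ δ * a) 0 (l * e) := h3.add_mem hδC hδ0 (hU.R_le ha)
  have h5 := h1.mul h4
  rw [add_zero, zero_add, hU.χ_eq δ hδ] at h5
  exact h5

/-- An element of `S.R` which is divisible by `χ(g)` in `C.R` is divisible by it in `S.R`. -/
theorem Under.div_mem (h : Ctx k v r) {S C : BF k v} (hU : Under S C) {e : ℕ}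
    (hy : C.Rep S.y 0 e) {f : Ω} (hf : f ∈ S.R) {g : ℝ} (hg : g ∈ S.Γ)
    (hfg : f / S.χ g ∈ C.R) : f / S.χ g ∈ S.R := by
  by_cases h0 : f = 0
  · rw [h0, zero_div]; exact S.R.zero_mem
  · obtain ⟨κ, l, hκ0, hrep⟩ := S.rep_exists h hf h0
    have hgC : g ∈ C.Γ := by rw [hU.Γ_eq]; exact hg
    have hχ := S.χ_ne g hg
    have h1 : g ≤ κ := by
      refine (hU.rep hy hrep).ge_of_mem h hgC hfg ?_
      rw [hU.χ_eq g hg, mul_div_cancel₀ _ hχ]
    have h2 := hrep.mul (S.rep_χ (S.Γ.neg_mem hg))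
    rw [S.χ_neg hg, ← div_eq_mul_inv] at h2
    exact h2.mem (by linarith)

/-- The order of an element of `S.R` whose content in `C` is known. -/
theorem Under.rep_desc (h : Ctx k v r) {S C : BF k v} (hU : Under S C) {e : ℕ}
    (hy : C.Rep S.y 0 e) {f : Ω} (hf : f ∈ S.R) {κ : ℝ} {D : ℕ} (hC : C.Rep f κ D) :
    ∃ l, l * e = D ∧ S.Rep f κ l := by
  have h0 : f ≠ 0 := hC.ne_zero h
  obtain ⟨κ', l, -, hrep⟩ := S.rep_exists h hf h0
  obtain ⟨h1, h2⟩ := (hU.rep hy hrep).unique h hC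
  subst h1
  exact ⟨l, h2, hrep⟩

/-! ## Taylor expansion -/

theorem eval_taylor_sum (f : Polynomial Ω) (η ψ : Ω) {N : ℕ} (hN : f.natDegree < N) :
    f.eval ψ = ∑ n ∈ Finset.range N, (hasseDeriv n f).eval η * (ψ - η) ^ n := by
  have h1 : f.eval ψ = (taylor η f).eval (ψ - η) := by rw [taylor_eval_sub]
  rw [h1, eval_eq_sum_range' (by rw [natDegree_taylor]; exact hN)]
  exact Finset.sum_congr rfl fun n _ => by rw [taylor_coeff]

theorem eval_hasse_sum (f : Polynomial Ω) (η ψ : Ω) (j : ℕ) :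
    (hasseDeriv j f).eval ψ = ∑ n ∈ Finset.range (f.natDegree + 1),
      ((n + j).choose n : Ω) * (hasseDeriv (n + j) f).eval η * (ψ - η) ^ n := by
  rw [eval_taylor_sum (hasseDeriv j f) η ψ (N := f.natDegree + 1)
    (Nat.lt_succ_of_le (natDegree_hasseDeriv_le f j |>.trans (Nat.sub_le _ _)))]
  refine Finset.sum_congr rfl fun n _ => ?_
  have h1 := congrArg (fun L => (L f).eval η) (hasseDeriv_comp (R := Ω) n j)
  simp only [LinearMap.comp_apply, LinearMap.smul_apply] at h1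
  rw [h1, ← Nat.cast_smul_eq_nsmul Ω, eval_smul, smul_eq_mul]

/-! ## The key computation -/

theorem key25 (h : Ctx k v r) {S C : BF k v} (hU : Under S C) {e : ℕ} (hy : C.Rep S.y 0 e)
    {A : Polynomial Ω} (hA : ∀ j, A.coeff j ∈ S.R) {m : ℕ} (hm : 1 ≤ m)
    {η ψ s : Ω} (hη : η ∈ C.R) (hψ : ψ ∈ S.R) {a σ : ℝ} (haΓ : a ∈ S.Γ) (ha0 : 0 < a)
    (haσ : a < σ) {D : ℕ} (hs : C.Rep s 0 D) (hD1 : 1 ≤ D) (hD : D < e)
    (heq : η - ψ = S.χ a * s)
    (hlow : ∀ i < m, (hasseDeriv i A).eval η = 0 ∨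
      (C.Mono ((hasseDeriv i A).eval η) ∧
        ((m : ℝ) - i) * σ ≤ v ((hasseDeriv i A).eval η)))
    (hunit : C.Un ((hasseDeriv m A).eval η)) :
    (∀ j : ℕ, (hasseDeriv j A).eval ψ * S.χ (((j : ℝ) - m) * a) ∈ S.R) ∧
    ∃ l, 1 ≤ l ∧ l < m ∧ S.Rep (A.eval ψ * S.χ ((-(m : ℝ)) * a)) 0 l := by
  classical
  have hmul : ∀ z : ℤ, (z : ℝ) * a ∈ S.Γ := fun z => by
    rw [← zsmul_eq_mul]; exact S.Γ.zsmul_mem haΓ z
  have hmulC : ∀ z : ℤ, (z : ℝ) * a ∈ C.Γ := fun z => by rw [hU.Γ_eq]; exact hmul z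
  have hχeq : ∀ z : ℤ, C.χ ((z : ℝ) * a) = S.χ ((z : ℝ) * a) := fun z => hU.χ_eq _ (hmul z)
  have hsC : s ∈ C.R := hs.mem le_rfl
  -- every `A^[i](η)` is in `C.R`
  have hAη : ∀ i, (hasseDeriv i A).eval η ∈ C.R := by
    intro i
    rw [eval_eq_sum_range]
    refine C.R.sum_mem fun n _ => C.R.mul_mem ?_ (C.R.pow_mem hη n)
    rw [hasseDeriv_coeff]
    refine C.R.mul_mem ?_ (hU.R_le (hA _))
    exact (natCast_mem C.R _)
  have hAψ : ∀ i, (hasseDeriv i A).eval ψ ∈ S.R := by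
    intro i
    rw [eval_eq_sum_range]
    refine S.R.sum_mem fun n _ => S.R.mul_mem ?_ (S.R.pow_mem hψ n)
    rw [hasseDeriv_coeff]
    refine S.R.mul_mem ?_ (hA _)
    exact (natCast_mem S.R _)
  -- the terms `T i = A^[i](η) χ((i - m) a)`
  have hterm : ∀ i : ℕ, i ≠ m → Hi C 0 ((hasseDeriv i A).eval η *
      C.χ ((((i : ℤ) - (m : ℤ) : ℤ) : ℝ) * a)) := by
    intro i hi
    rcases lt_or_gt_of_ne hi with hlt | hgt
    · rcases hlow i hlt with h0 | ⟨hM, hv⟩
      · rw [h0, zero_mul]; exact Hi.zero C C.Γ.zero_mem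
      · have h1 := hM.rep.mul (C.rep_χ (hmulC ((i : ℤ) - (m : ℤ))))
        obtain ⟨hκ, u, hu, δ, hδ, hδ0, b, hb, hbe⟩ := h1
        refine ⟨_, hκ, ?_, _, ?_, hbe⟩
        · have h2 : 0 < ((m : ℝ) - i) := by
            have : (i : ℝ) < m := by exact_mod_cast hlt
            linarith
          have h3 : 0 < ((m : ℝ) - i) * (σ - a) := mul_pos h2 (by linarith)
          push_cast
          nlinarith
        · exact C.R.add_mem (C.R.mul_mem hu.1 (C.R.pow_mem C.y_mem _))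
            (C.R.mul_mem (C.χ_mem δ hδ hδ0.le) hb)
    · refine ⟨_, hmulC ((i : ℤ) - (m : ℤ)), ?_, _, hAη i, by rw [mul_comm]⟩
      have h2 : (0 : ℝ) < (((i : ℤ) - (m : ℤ) : ℤ) : ℝ) := by
        have : (m : ℤ) < i := by exact_mod_cast hgt
        have h3 : (0 : ℤ) < (i : ℤ) - (m : ℤ) := by omega
        exact_mod_cast h3
      exact mul_pos h2 ha0
  have htm : (hasseDeriv m A).eval η * C.χ ((((m : ℤ) - (m : ℤ) : ℤ) : ℝ) * a) =
      (hasseDeriv m A).eval η := by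
    rw [sub_self, Int.cast_zero, zero_mul, C.χ_zero, mul_one]
  have htermR : ∀ i : ℕ, (hasseDeriv i A).eval η *
      C.χ ((((i : ℤ) - (m : ℤ) : ℤ) : ℝ) * a) ∈ C.R := by
    intro i
    by_cases hi : i = m
    · subst hi; rw [htm]; exact hunit.1
    · obtain ⟨γ, hγ, hγ0, b, hb, hbe⟩ := hterm i hi
      rw [hbe]; exact C.R.mul_mem (C.χ_mem γ hγ hγ0.le) hb
  have hψη : ψ - η = C.χ a * (-s) := by
    have : C.χ a = S.χ a := hU.χ_eq a haΓ
    rw [this, mul_neg, ← heq]; ring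
  -- the expansion of `g_j`
  have hexp : ∀ j : ℕ, (hasseDeriv j A).eval ψ * C.χ ((((j : ℤ) - (m : ℤ) : ℤ) : ℝ) * a) =
      ∑ n ∈ Finset.range (A.natDegree + 1), ((n + j).choose n : Ω) *
        ((hasseDeriv (n + j) A).eval η *
          C.χ (((((n + j : ℕ) : ℤ) - (m : ℤ) : ℤ) : ℝ) * a)) * (-s) ^ n := by
    intro j
    rw [eval_hasse_sum A η ψ j, Finset.sum_mul]
    refine Finset.sum_congr rfl fun n _ => ?_
    have haC : a ∈ C.Γ := by rw [hU.Γ_eq]; exact haΓ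
    have e1 : C.χ (((((n + j : ℕ) : ℤ) - (m : ℤ) : ℤ) : ℝ) * a) =
        C.χ a ^ n * C.χ ((((j : ℤ) - (m : ℤ) : ℤ) : ℝ) * a) := by
      have h1 : (n : ℝ) * a ∈ C.Γ := by
        have := hmulC (n : ℤ)
        push_cast at this
        exact this
      rw [← C.χ_nsmul haC n, ← C.χ_add _ h1 _ (hmulC _)]
      congr 1
      push_cast
      ring
    rw [e1, hψη, mul_pow]
    ring
  have hmem : ∀ j : ℕ, (hasseDeriv j A).eval ψ *
      C.χ ((((j : ℤ) - (m : ℤ) : ℤ) : ℝ) * a) ∈ C.R := by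
    intro j
    rw [hexp j]
    refine C.R.sum_mem fun n _ => C.R.mul_mem (C.R.mul_mem ?_ (htermR _))
      (C.R.pow_mem (C.R.neg_mem hsC) n)
    exact natCast_mem C.R _
  -- first claim
  have hfirst : ∀ j : ℕ, (hasseDeriv j A).eval ψ *
      S.χ ((((j : ℤ) - (m : ℤ) : ℤ) : ℝ) * a) ∈ S.R := by
    intro j
    have e1 : S.χ ((((j : ℤ) - (m : ℤ) : ℤ) : ℝ) * a) =
        (S.χ ((((m : ℤ) - (j : ℤ) : ℤ) : ℝ) * a))⁻¹ := by
      rw [← S.χ_neg (hmul _)]
      congr 1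
      push_cast
      ring
    have h1 := hmem j
    rw [hχeq, e1, ← div_eq_mul_inv] at h1
    rw [e1, ← div_eq_mul_inv]
    exact hU.div_mem h hy (hAψ j) (hmul _) h1
  refine ⟨fun j => ?_, ?_⟩
  · have := hfirst j
    push_cast at this
    exact this
  · -- the constant term
    have h0 := hexp 0
    have hg0 : A.eval ψ * S.χ ((-(m : ℝ)) * a) ∈ S.R := by
      have := hfirst 0
      rw [hasseDeriv_zero'] at this
      push_cast at this
      rwa [zero_sub] at this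
    have hrepm : C.Rep ((hasseDeriv m A).eval η * (-s) ^ m) 0 (m * D) := by
      have h2 : C.Rep ((hasseDeriv m A).eval η) 0 0 := by
        have := (Mono.un hunit).rep
        rwa [hunit.2.2] at this
      have h3 : C.Rep (-s) 0 D := by
        obtain ⟨hκ, u, hu, δ, hδ, hδ0, b, hb, hbe⟩ := hs
        refine ⟨hκ, -u, ⟨C.R.neg_mem hu.1, neg_ne_zero.2 hu.2.1, ?_⟩, δ, hδ, hδ0, -b,
          C.R.neg_mem hb, ?_⟩
        · rw [v.map_neg u hu.2.1]; exact hu.2.2
        · rw [hbe]; ring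
      have h4 := h2.mul (h3.pow m)
      rwa [mul_zero, add_zero, zero_add] at h4
    have hm_le : m < A.natDegree + 1 := by
      by_contra hcon
      have h5 : A.natDegree < m := by omega
      have h6 : hasseDeriv m A = 0 := hasseDeriv_eq_zero_of_lt_natDegree A m h5
      apply hunit.2.1
      rw [h6, eval_zero]
    have hrep : C.Rep (A.eval ψ * S.χ ((-(m : ℝ)) * a)) 0 (m * D) := by
      have e2 : A.eval ψ * S.χ ((-(m : ℝ)) * a) =
          (hasseDeriv 0 A).eval ψ * C.χ ((((0 : ℕ) : ℤ) - (m : ℤ) : ℤ) * a) := by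
        rw [hasseDeriv_zero', hχeq]
        congr 2
        push_cast
        ring
      rw [e2, h0, ← Finset.add_sum_erase _ _ (Finset.mem_range.2 hm_le)]
      have e3 : (((m + 0).choose m : ℕ) : Ω) * ((hasseDeriv (m + 0) A).eval η *
          C.χ (((((m + 0 : ℕ) : ℤ) - (m : ℤ) : ℤ) : ℝ) * a)) * (-s) ^ m =
          (hasseDeriv m A).eval η * (-s) ^ m := by
        simp only [add_zero, Nat.choose_self, Nat.cast_one, one_mul]
        rw [htm]
      rw [e3]
      have hsum : Hi C 0 (∑ n ∈ (Finset.range (A.natDegree + 1)).erase m,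
          (((n + 0).choose n : ℕ) : Ω) * ((hasseDeriv (n + 0) A).eval η *
            C.χ (((((n + 0 : ℕ) : ℤ) - (m : ℤ) : ℤ) : ℝ) * a)) * (-s) ^ n) := by
        refine Finset.sum_induction _ (Hi C 0) (fun _ _ => Hi.add) (Hi.zero C C.Γ.zero_mem)
          fun n hn => ?_
        have h5 := (hterm n (Finset.ne_of_mem_erase hn)).mul
          (C.R.pow_mem (C.R.neg_mem hsC) n)
        have h6 : (((n + 0).choose n : ℕ) : Ω) = 1 := by simp
        rw [h6, one_mul, mul_comm]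
        exact h5
      obtain ⟨γ, hγ, hγ0, b, hb, hbe⟩ := hsum
      rw [hbe]
      exact hrepm.add_mem hγ hγ0 hb
    obtain ⟨l, hl, hlrep⟩ := hU.rep_desc h hy hg0 hrep
    refine ⟨l, ?_, ?_, hlrep⟩
    · by_contra hcon
      have : l = 0 := by omega
      subst this
      rw [zero_mul] at hl
      have : 0 < m * D := Nat.mul_pos hm hD1
      omega
    · have h7 : l * e < m * e := by
        rw [hl]
        exact Nat.mul_lt_mul_of_pos_left hD hm
      exact Nat.lt_of_mul_lt_mul_right h7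

end Pool.Agent.D2h2
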