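import Pool.Agent.Lib.D2_h2.Key25
import Pool.Agent.Lib.LU3.Rows

/-!
# DefectTwo: `Row8b` of `LU3.Rows`
-/

set_option autoImplicit false

open Polynomial

namespace Pool.Agent.LU3

open Pool.Agent.LU1 Pool.Agent.D2h2
open Pool.Agent.H15JM (RVal)

universe u

variable {k Ω : Type u} [Field k] [Field Ω] [Algebra k Ω] {v : RVal Ω} {r : ℕ}

theorem IsPair.under {L₀ N : IntermediateField k Ω} {S C : BF k v} {e : ℕ}
    (hp : IsPair L₀ N S C e) : Under S C where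
  R_le := hp.le
  Γ_eq := hp.ΓC
  χ_eq γ _ := by rw [hp.χ_eq]

theorem row8b : Row8b k Ω v r := by
  intro h L₀ N S C e hp A m σ a D η ψ hA hη hψ hm hD1 hD haΓ ha0 haσ hs hlow hunit
  have hχ : S.χ a ≠ 0 := S.χ_ne a haΓ
  have heq : η - ψ = S.χ a * ((η - ψ) / S.χ a) := by rw [mul_div_cancel₀ _ hχ]
  obtain ⟨h1, l, -, h2, h3⟩ := key25 h hp.under hp.rep hA hm hη hψ haΓ ha0 haσ hs hD1 hD heq
    hlow hunit
  refine ⟨h1, l, h2, ?_⟩
  rwa [neg_mul] at h3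

end Pool.Agent.LU3
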